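import Pool.Agent.Helper56_Tow.Tower

/-!
# Subgroups in general position (Theorem G)

Let `H i` be subgroups of `G` and `t i` elements which normalise `H i` and are not in `H i`, such
that the coset `t i * H i` meets every intersection of conjugates `g j * H j * (g j)⁻¹`, `j < i`.
Then `G` is good.
-/

set_option autoImplicit false

open scoped Topology Pointwise

namespace Pool.Agent.Loc52

open Pool.Agent.Helper34_Synd Pool.Agent.Helper56_Tow

section minimal

variable {G Y : Type*} [Group G] [TopologicalSpace Y] [CompactSpace Y] [MulAction G Y]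

/-- Every nonempty closed invariant set contains a minimal one. -/
theorem exists_minimal_set (Z : Set Y) (hZc : IsClosed Z) (hZn : Z.Nonempty)
    (hZ : ∀ (g : G), ∀ y ∈ Z, g • y ∈ Z) :
    ∃ M : Set Y, M ⊆ Z ∧ IsClosed M ∧ M.Nonempty ∧ (∀ (g : G), ∀ y ∈ M, g • y ∈ M) ∧
      ∀ M' : Set Y, M' ⊆ M → IsClosed M' → M'.Nonempty → (∀ (g : G), ∀ y ∈ M', g • y ∈ M') →
        M' = M := by
  let S : Set (Set Y) := {A | IsClosed A ∧ A.Nonempty ∧ ∀ (g : G), ∀ y ∈ A, g • y ∈ A}
  obtain ⟨M, hMZ, hM⟩ := zorn_superset_nonempty S (by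
    intro c hcS hc hcn
    refine ⟨⋂₀ c, ⟨isClosed_sInter fun A hA => (hcS hA).1, ?_, ?_⟩, fun A hA => Set.sInter_subset_of_mem hA⟩
    · have : Nonempty c := hcn.to_subtype
      rw [Set.sInter_eq_iInter]
      apply IsCompact.nonempty_iInter_of_directed_nonempty_isCompact_isClosed
      · intro A B
        rcases hc.total A.2 B.2 with h | h
        · exact ⟨A, subset_rfl, h⟩
        · exact ⟨B, h, subset_rfl⟩
      · exact fun A => (hcS A.2).2.1
      · exact fun A => (hcS A.2).1.isCompact
      · exact fun A => (hcS A.2).1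
    · intro g y hy A hA
      exact (hcS hA).2.2 g y (hy A hA)) Z ⟨hZc, hZn, hZ⟩
  refine ⟨M, hMZ, hM.prop.1, hM.prop.2.1, hM.prop.2.2, fun M' h1 h2 h3 h4 => ?_⟩
  exact Set.Subset.antisymm h1 (hM.le_of_le ⟨h2, h3, h4⟩ h1)

end minimal

/-- Sequences of 2-colourings of `G`. -/
def Col (G : Type*) : Type _ := ℕ → G → Bool

section col

variable (G : Type*) [Group G]

instance : TopologicalSpace (Col G) := inferInstanceAs (TopologicalSpace (ℕ → G → Bool))
instance : CompactSpace (Col G) := inferInstanceAs (CompactSpace (ℕ → G → Bool))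
instance : T2Space (Col G) := inferInstanceAs (T2Space (ℕ → G → Bool))

variable {G}

theorem continuous_eval (i : ℕ) (q : G) : Continuous fun y : Col G => y i q :=
  (continuous_apply q).comp (continuous_apply i)

instance : MulAction G (Col G) where
  smul g y := fun i q => y i (q * g)
  one_smul y := by
    funext i q
    exact congrArg (y i) (mul_one q)
  mul_smul g h y := by
    funext i q
    exact congrArg (y i) (mul_assoc q g h).symm

theorem smul_col (g : G) (y : Col G) (i : ℕ) (q : G) : (g • y) i q = y i (q * g) := rfl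

instance : ContinuousConstSMul G (Col G) where
  continuous_const_smul g := by
    apply continuous_pi
    intro i
    apply continuous_pi
    intro q
    exact continuous_eval i (q * g)

end col

variable {G : Type*} [Group G]

/-- A left `H`-invariant maximal independent set for `q ↦ t q`. -/
theorem exists_colouring (H : Subgroup G) (t : G) (hn : ∀ h ∈ H, t * h * t⁻¹ ∈ H)
    (hn' : ∀ h ∈ H, t⁻¹ * h * t ∈ H) (ht : t ∉ H) :
    ∃ y : G → Bool, (∀ h ∈ H, ∀ q, y (h * q) = y q) ∧
      (∀ q, y q = true → y (t * q) = false) ∧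
      ∀ q, y q = true ∨ y (t * q) = true ∨ y (t⁻¹ * q) = true := by
  classical
  let S : Set (Set G) := {A | (∀ h ∈ H, ∀ q ∈ A, h * q ∈ A) ∧ ∀ q ∈ A, t * q ∉ A}
  obtain ⟨A, -, hA⟩ := zorn_subset_nonempty S (by
    intro c hcS hc _
    refine ⟨⋃₀ c, ⟨?_, ?_⟩, fun A hA => Set.subset_sUnion_of_mem hA⟩
    · rintro h hh q ⟨B, hB, hq⟩
      exact ⟨B, hB, (hcS hB).1 h hh q hq⟩
    · rintro q ⟨B, hB, hq⟩ ⟨B', hB', hq'⟩
      rcases hc.total hB hB' with h | h
      · exact (hcS hB').2 q (h hq) hq'
      · exact (hcS hB).2 q hq (h hq')) ∅ ⟨fun _ _ _ h => h.elim, fun _ h => h.elim⟩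
  refine ⟨fun q => decide (q ∈ A), ?_, ?_, ?_⟩
  · intro h hh q
    apply Bool.decide_congr
    constructor
    · intro hq
      have := hA.prop.1 h⁻¹ (H.inv_mem hh) _ hq
      rwa [inv_mul_cancel_left] at this
    · exact hA.prop.1 h hh q
  · intro q hq
    rw [decide_eq_true_eq] at hq
    exact decide_eq_false (hA.prop.2 q hq)
  · intro q
    by_contra hcon
    push Not at hcon
    obtain ⟨h1, h2, h3⟩ := hcon
    simp only [ne_eq, decide_eq_true_eq] at h1 h2 h3
    let B : Set G := A ∪ {x | ∃ h ∈ H, x = h * q}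
    have hB : B ∈ S := by
      refine ⟨?_, ?_⟩
      · rintro h hh x (hx | ⟨k, hk, rfl⟩)
        · exact Or.inl (hA.prop.1 h hh x hx)
        · exact Or.inr ⟨h * k, H.mul_mem hh hk, (mul_assoc h k q).symm⟩
      · rintro x (hx | ⟨k, hk, rfl⟩) (hx' | ⟨k', hk', hx'⟩)
        · exact hA.prop.2 x hx hx'
        · apply h3
          have : x = t⁻¹ * k' * t * (t⁻¹ * q) := by
            rw [eq_inv_mul_of_mul_eq hx']
            group
          rw [this] at hx
          have h4 := hA.prop.1 _ (H.inv_mem (hn' k' hk')) _ hx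
          rwa [inv_mul_cancel_left] at h4
        · apply h2
          have : t * (k * q) = t * k * t⁻¹ * (t * q) := by group
          rw [this] at hx'
          have h4 := hA.prop.1 _ (H.inv_mem (hn k hk)) _ hx'
          rwa [inv_mul_cancel_left] at h4
        · apply ht
          have h5 : t * k = k' := by
            have := congrArg (fun z => z * q⁻¹) hx'
            simpa [mul_assoc] using this
          have : t = k' * k⁻¹ := by
            rw [← h5]
            group
          rw [this]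
          exact H.mul_mem hk' (H.inv_mem hk)
    have hAB : B ⊆ A := hA.le_of_ge hB Set.subset_union_left
    exact h1 (hAB (Or.inr ⟨1, H.one_mem, (one_mul q).symm⟩))

/-- The killing step, repeated. -/
theorem kill (H : ℕ → Subgroup G) (t : ℕ → G)
    (hn : ∀ i, ∀ h ∈ H i, t i * h * (t i)⁻¹ ∈ H i)
    (hI : ∀ (i : ℕ) (g : ℕ → G), ∃ e : G, (t i)⁻¹ * e ∈ H i ∧
      ∀ j < i, (g j)⁻¹ * e * g j ∈ H j)
    (M : Set (Col G)) (hMi : ∀ (g : G), ∀ y ∈ M, g • y ∈ M)
    (hM1 : ∀ y ∈ M, ∀ i, ∀ h ∈ H i, ∀ q, y i (h * q) = y i q)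
    (hM2 : ∀ y ∈ M, ∀ i q, y i q = true → y i (t i * q) = false)
    (x₀ : Col G) (hx₀ : x₀ ∈ M) (γ : ℕ → G) (r : ℕ) :
    ∀ T : Finset (G × ℕ), T.card = r →
      (∀ n, (T.filter (fun p => p.2 ≤ n)).card ≤ 2 ^ n) →
      ∃ x ∈ M, ∃ pos : ℕ → G, (∀ j < r, x j (pos j)⁻¹ = false) ∧
        ∀ p ∈ T, ∃ j < r, pos j = p.1 * γ j ∧ j ≤ 2 ^ p.2 := by
  classical
  induction r with
  | zero =>
    intro T hT _
    rw [Finset.card_eq_zero] at hT
    subst hT
    exact ⟨x₀, hx₀, fun _ => 1, fun j hj => absurd hj (Nat.not_lt_zero j),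
      fun p hp => absurd hp (Finset.notMem_empty p)⟩
  | succ r ih =>
    intro T hT hH
    have hne : T.Nonempty := by
      rw [← Finset.card_pos, hT]
      exact Nat.succ_pos r
    obtain ⟨q, hq, hmax⟩ := T.exists_max_image (fun p => p.2) hne
    have hcard : (T.erase q).card = r := by
      rw [Finset.card_erase_of_mem hq, hT]
      rfl
    have hrle : r ≤ 2 ^ q.2 := by
      have h1 : T.filter (fun p => p.2 ≤ q.2) = T := by
        rw [Finset.filter_eq_self]
        exact hmax
      have h2 := hH q.2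
      rw [h1, hT] at h2
      omega
    obtain ⟨x', hx'M, pos', hpos', hT'⟩ := ih (T.erase q) hcard (fun n => by
      refine le_trans (Finset.card_le_card ?_) (hH n)
      exact Finset.filter_subset_filter _ (Finset.erase_subset q T))
    let g : G := q.1 * γ r
    have key : ∃ x ∈ M, (∀ j < r, x j (pos' j)⁻¹ = false) ∧ x r g⁻¹ = false := by
      by_cases hc : x' r g⁻¹ = false
      · exact ⟨x', hx'M, hpos', hc⟩
      · rw [Bool.not_eq_false] at hc
        obtain ⟨e, he1, he2⟩ := hI r (fun j => g⁻¹ * pos' j)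
        refine ⟨(g * e⁻¹ * g⁻¹) • x', hMi _ _ hx'M, fun j hj => ?_, ?_⟩
        · rw [smul_col]
          have h1 : (pos' j)⁻¹ * (g * e⁻¹ * g⁻¹) =
              ((g⁻¹ * pos' j)⁻¹ * e * (g⁻¹ * pos' j))⁻¹ * (pos' j)⁻¹ := by group
          rw [h1, hM1 x' hx'M j _ ((H j).inv_mem (he2 j hj))]
          exact hpos' j hj
        · rw [smul_col]
          have h1 : g⁻¹ * (g * e⁻¹ * g⁻¹) = e⁻¹ * g⁻¹ := by group
          rw [h1]
          by_contra h2
          rw [Bool.not_eq_false] at h2
          have h3 := hM2 x' hx'M r _ h2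
          have h4 : t r * (e⁻¹ * g⁻¹) = (t r * ((t r)⁻¹ * e)⁻¹ * (t r)⁻¹) * g⁻¹ := by group
          rw [h4, hM1 x' hx'M r _ (hn r _ ((H r).inv_mem he1)), hc] at h3
          exact Bool.noConfusion h3
    obtain ⟨x, hxM, hx1, hx2⟩ := key
    refine ⟨x, hxM, Function.update pos' r g, fun j hj => ?_, fun p hp => ?_⟩
    · rcases Nat.lt_succ_iff_lt_or_eq.1 hj with h | rfl
      · rw [Function.update_of_ne (ne_of_lt h)]
        exact hx1 j h
      · rw [Function.update_self]
        exact hx2
    · by_cases hpq : p = q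
      · subst hpq
        exact ⟨r, Nat.lt_succ_self r, Function.update_self _ _ _, hrle⟩
      · obtain ⟨j, hj, h1, h2⟩ := hT' p (Finset.mem_erase.2 ⟨hpq, hp⟩)
        refine ⟨j, hj.trans (Nat.lt_succ_self r), ?_, h2⟩
        rw [Function.update_of_ne (ne_of_lt hj)]
        exact h1

/-- **Theorem G.** -/
theorem good_of_cosets (H : ℕ → Subgroup G) (t : ℕ → G)
    (hn : ∀ i, ∀ h ∈ H i, t i * h * (t i)⁻¹ ∈ H i)
    (hn' : ∀ i, ∀ h ∈ H i, (t i)⁻¹ * h * t i ∈ H i)
    (ht : ∀ i, t i ∉ H i)
    (hI : ∀ (i : ℕ) (g : ℕ → G), ∃ e : G, (t i)⁻¹ * e ∈ H i ∧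
      ∀ j < i, (g j)⁻¹ * e * g j ∈ H j) : Good G := by
  classical
  let Z : Set (Col G) := {y | (∀ i, ∀ h ∈ H i, ∀ q, y i (h * q) = y i q) ∧
    (∀ i q, y i q = true → y i (t i * q) = false) ∧
    ∀ i q, y i q = true ∨ y i (t i * q) = true ∨ y i ((t i)⁻¹ * q) = true}
  have hclopen : ∀ (i : ℕ) (q : G) (b : Bool), IsClopen {y : Col G | y i q = b} := fun i q b =>
    (isClopen_discrete {b}).preimage (continuous_eval i q)
  have hZc : IsClosed Z := by
    have h1 : IsClosed {y : Col G | ∀ i, ∀ h ∈ H i, ∀ q, y i (h * q) = y i q} := by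
      simp only [Set.ofPred_forall]
      exact isClosed_iInter fun i => isClosed_iInter fun h => isClosed_iInter fun _ =>
        isClosed_iInter fun q => isClosed_eq (continuous_eval i (h * q)) (continuous_eval i q)
    have h2 : IsClosed {y : Col G | ∀ i q, y i q = true → y i (t i * q) = false} := by
      simp only [Set.ofPred_forall]
      refine isClosed_iInter fun i => isClosed_iInter fun q => ?_
      have : {y : Col G | y i q = true → y i (t i * q) = false} =
          {y | y i q = true}ᶜ ∪ {y | y i (t i * q) = false} := by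
        ext y
        simp only [Set.mem_ofPred_eq, Set.mem_union, Set.mem_compl_iff]
        exact imp_iff_not_or
      rw [this]
      exact (hclopen i q true).compl.isClosed.union (hclopen i (t i * q) false).isClosed
    have h3 : IsClosed {y : Col G | ∀ i q, y i q = true ∨ y i (t i * q) = true ∨
        y i ((t i)⁻¹ * q) = true} := by
      simp only [Set.ofPred_forall]
      exact isClosed_iInter fun i => isClosed_iInter fun q =>
        (hclopen i q true).isClosed.union ((hclopen i (t i * q) true).isClosed.union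
          (hclopen i ((t i)⁻¹ * q) true).isClosed)
    exact h1.inter (h2.inter h3)
  have hZn : Z.Nonempty := by
    choose y hy1 hy2 hy3 using fun i => exists_colouring (H i) (t i) (hn i) (hn' i) (ht i)
    exact ⟨y, hy1, hy2, hy3⟩
  have hZi : ∀ (g : G), ∀ y ∈ Z, g • y ∈ Z := by
    rintro g y ⟨h1, h2, h3⟩
    refine ⟨fun i h hh q => ?_, fun i q => ?_, fun i q => ?_⟩
    · rw [smul_col, smul_col, mul_assoc]
      exact h1 i h hh _
    · rw [smul_col, smul_col, mul_assoc]
      exact h2 i _
    · rw [smul_col, smul_col, smul_col, mul_assoc, mul_assoc]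
      exact h3 i _
  obtain ⟨M, hMZ, hMc, hMn, hMi, hMm⟩ := exists_minimal_set Z hZc hZn hZi
  letI : MulAction G M :=
    { smul := fun g y => ⟨g • y.1, hMi g y.1 y.2⟩
      one_smul := fun y => Subtype.ext (one_smul G y.1)
      mul_smul := fun g h y => Subtype.ext (mul_smul g h y.1) }
  have hsmul : ∀ (g : G) (y : M), ((g • y : M) : Col G) = g • (y : Col G) := fun _ _ => rfl
  haveI : ContinuousConstSMul G M := ⟨fun g =>
    ((continuous_const_smul g).comp continuous_subtype_val).subtype_mk _⟩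
  haveI : CompactSpace M := isCompact_iff_compactSpace.1 hMc.isCompact
  haveI : Nonempty M := hMn.to_subtype
  haveI : MulAction.IsMinimal G M := by
    rw [isMinimal_iff_isClosed_smul_invariant]
    intro s hs hsi
    by_cases hne : s.Nonempty
    · right
      have h1 := hMm (Subtype.val '' s) (by
        rintro _ ⟨y, _, rfl⟩
        exact y.2) ((hMc.isClosedEmbedding_subtypeVal).isClosedMap s hs) (hne.image _) (by
        rintro g _ ⟨y, hy, rfl⟩
        exact ⟨g • y, hsi g (Set.smul_mem_smul_set hy), rfl⟩)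
      ext y
      simp only [Set.mem_univ, iff_true]
      have h2 : (y : Col G) ∈ Subtype.val '' s := by
        rw [h1]
        exact y.2
      obtain ⟨z, hz, hzy⟩ := h2
      rwa [← Subtype.ext hzy]
    · left
      exact Set.not_nonempty_iff_eq_empty.1 hne
  let F : ℕ → Set M := fun i => {y | (y : Col G) i 1 = true}
  have hFc : ∀ i, IsClopen (F i) := fun i => (hclopen i 1 true).preimage continuous_subtype_val
  refine good_of_killing (X := M) F F (fun i => (hFc i).isClosed) (fun i => (hFc i).isOpen) ?_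
    (fun _ => subset_rfl) ?_
  · intro i
    obtain ⟨x⟩ := ‹Nonempty M›
    rcases (hMZ x.2).2.2 i 1 with h | h | h
    · exact ⟨x, h⟩
    · refine ⟨t i • x, ?_⟩
      change ((t i • x : M) : Col G) i 1 = true
      rw [hsmul, smul_col, one_mul]
      rwa [mul_one] at h
    · refine ⟨(t i)⁻¹ • x, ?_⟩
      change (((t i)⁻¹ • x : M) : Col G) i 1 = true
      rw [hsmul, smul_col, one_mul]
      rwa [mul_one] at h
  · intro γ C hC T hT
    obtain ⟨x₀⟩ := ‹Nonempty M›
    obtain ⟨x, hxM, pos, hpos, hTp⟩ := kill H t hn hI M hMi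
      (fun y hy => (hMZ hy).1) (fun y hy => (hMZ hy).2.1) x₀.1 x₀.2 γ T.card T rfl hT
    refine ⟨⟨x, hxM⟩, fun p hp hcl => ?_⟩
    obtain ⟨j, hj, h1, h2⟩ := hTp p hp
    have h3 : x j (1 * (γ j)⁻¹ * p.1⁻¹) = true := hC p.2 j h2 _ hcl
    rw [one_mul, ← mul_inv_rev, ← h1, hpos j hj] at h3
    exact Bool.noConfusion h3

end Pool.Agent.Loc52
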