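import Mathlib

/-!
# Ultrafilters that are not images of each other
-/

set_option autoImplicit false

open Filter

namespace Pool.Agent.Loc52

/-- The countable set which carries an independent family. -/
abbrev D : Type := Finset ℕ × Finset (Finset ℕ)

open Classical in
/-- For every family of ultrafilters with at most continuum many members there is a nonprincipal
ultrafilter which is not in the family. -/
theorem exists_new {ι : Type*} (e : ι → Set ℕ) (he : Function.Injective e)
    (φ : ι → Ultrafilter D) :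
    ∃ v : Ultrafilter D, (∀ d : D, ({d}ᶜ : Set D) ∈ v) ∧ ∀ x, v ≠ φ x := by
  let A : ι → Set D := fun x => {d | d.1.filter (· ∈ e x) ∈ d.2}
  let B : ι → Set D := fun x => if A x ∈ φ x then (A x)ᶜ else A x
  have hB : ∀ x, B x ∉ φ x := by
    intro x
    simp only [B]
    split_ifs with h
    · exact Ultrafilter.compl_notMem_iff.2 h
    · exact h
  have key : ∀ (X : Finset ι) (E : Finset D), ∃ d : D, d ∉ E ∧ ∀ x ∈ X, d ∈ B x := by
    intro X E
    -- a finite set which separates
    have hsep : ∀ p : ι × ι, ∃ n : ℕ, p.1 ≠ p.2 → (n ∈ e p.1 ↔ n ∉ e p.2) := by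
      rintro ⟨x, y⟩
      by_cases hxy : x = y
      · exact ⟨0, fun h => absurd hxy h⟩
      · have h1 : e x ≠ e y := fun h => hxy (he h)
        by_contra hcon
        push Not at hcon
        apply h1
        ext n
        have := (hcon n).2
        tauto
    choose s hs using hsep
    let F : Finset ℕ := (X ×ˢ X).image s ∪ Finset.range (∑ d ∈ E, d.1.card + 1)
    have hFE : ∀ d ∈ E, d.1 ≠ F := by
      intro d hd h
      have h1 : (Finset.range (∑ d ∈ E, d.1.card + 1)).card ≤ F.card :=
        Finset.card_le_card Finset.subset_union_right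
      rw [Finset.card_range, ← h] at h1
      have h2 : d.1.card ≤ ∑ d ∈ E, d.1.card :=
        Finset.single_le_sum (f := fun d : D => d.1.card) (fun _ _ => Nat.zero_le _) hd
      omega
    have hinj : ∀ x ∈ X, ∀ y ∈ X, F.filter (· ∈ e x) = F.filter (· ∈ e y) → x = y := by
      intro x hx y hy h
      by_contra hxy
      have h1 : s (x, y) ∈ F := Finset.mem_union_left _
        (Finset.mem_image_of_mem _ (Finset.mem_product.2 ⟨hx, hy⟩))
      have h2 := hs (x, y) hxy
      have h3 : s (x, y) ∈ F.filter (· ∈ e x) ↔ s (x, y) ∈ F.filter (· ∈ e y) := by rw [h]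
      rw [Finset.mem_filter, Finset.mem_filter] at h3
      simp only at h2
      tauto
    refine ⟨(F, (X.filter (fun x => A x ∉ φ x)).image (fun x => F.filter (· ∈ e x))),
      fun h => hFE _ h rfl, fun x hx => ?_⟩
    have h1 : ((F, (X.filter (fun x => A x ∉ φ x)).image (fun x => F.filter (· ∈ e x))) : D) ∈ A x ↔
        A x ∉ φ x := by
      simp only [A, Set.mem_ofPred_eq, Finset.mem_image, Finset.mem_filter]
      constructor
      · rintro ⟨y, ⟨hy, hyA⟩, hyx⟩
        have := hinj y hy x hx hyx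
        subst this
        exact hyA
      · intro h
        exact ⟨x, ⟨hx, h⟩, rfl⟩
    simp only [B]
    split_ifs with h
    · intro h2
      exact h1.1 h2 h
    · exact h1.2 h
  obtain ⟨v, hv⟩ := Ultrafilter.exists_ultrafilter_of_finite_inter_nonempty
    (Set.range B ∪ Set.range fun d : D => ({d}ᶜ : Set D)) (by
    intro T hT
    have h1 : ∀ s : Set D, ∃ (x : Option ι) (d : Option D), s ∈ T →
        (∀ z : D, (∀ y, x = some y → z ∈ B y) → (∀ c, d = some c → z ≠ c) → z ∈ s) := by
      intro s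
      by_cases hs : s ∈ T
      · rcases hT hs with ⟨x, rfl⟩ | ⟨d, rfl⟩
        · exact ⟨some x, none, fun _ z hz _ => hz x rfl⟩
        · exact ⟨none, some d, fun _ z _ hz => hz d rfl⟩
      · exact ⟨none, none, fun h => absurd h hs⟩
    choose x d hxd using h1
    obtain ⟨z, hz1, hz2⟩ := key (T.biUnion fun s => (x s).toFinset) (T.biUnion fun s => (d s).toFinset)
    refine ⟨z, fun s hs => hxd s hs z (fun y hy => ?_) fun c hc h => ?_⟩
    · apply hz2
      rw [Finset.mem_biUnion]
      exact ⟨s, hs, by rw [hy]; simp⟩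
    · apply hz1
      rw [Finset.mem_biUnion]
      exact ⟨s, hs, by rw [hc, h]; simp⟩)
  refine ⟨v, fun d => hv (Or.inr ⟨d, rfl⟩), fun x hx => ?_⟩
  apply hB x
  rw [← hx]
  exact hv (Or.inl ⟨x, rfl⟩)

/-- An injection of the pairs (function, index) into the sets of natural numbers. -/
def enc (p : (ℕ → ℕ) × ℕ) : Set ℕ := {k | k = Nat.pair 0 p.2 ∨ ∃ n, k = Nat.pair (n + 1) (p.1 n)}

theorem enc_injective : Function.Injective enc := by
  rintro ⟨f, j⟩ ⟨f', j'⟩ h
  have h1 : ∀ a b, (Nat.pair a b ∈ enc (f, j) ↔ Nat.pair a b ∈ enc (f', j')) := by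
    intro a b
    rw [h]
  have h2 : j = j' := by
    have := (h1 0 j).1 (Or.inl rfl)
    rcases this with h3 | ⟨n, h3⟩
    · exact (Nat.pair_eq_pair.1 h3).2
    · have := (Nat.pair_eq_pair.1 h3).1
      omega
  have h3 : f = f' := by
    funext n
    have := (h1 (n + 1) (f n)).1 (Or.inr ⟨n, rfl⟩)
    rcases this with h3 | ⟨n', h3⟩
    · have := (Nat.pair_eq_pair.1 h3).1
      omega
    · obtain ⟨h4, h5⟩ := Nat.pair_eq_pair.1 h3
      have h6 : n = n' := by omega
      subst h6
      exact h5
  rw [h2, h3]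

/-- Countably many nonprincipal ultrafilters, none of which is an image of an earlier one. -/
theorem exists_family : ∃ u : ℕ → Ultrafilter ℕ, (∀ i n, ({n}ᶜ : Set ℕ) ∈ u i) ∧
    ∀ i, ∀ j < i, ∀ f : ℕ → ℕ, u i ≠ (u j).map f := by
  let eq : D ≃ ℕ := Denumerable.eqv D
  have step : ∀ w : ℕ → Ultrafilter ℕ, ∃ v : Ultrafilter ℕ, (∀ n, ({n}ᶜ : Set ℕ) ∈ v) ∧
      ∀ j, ∀ f : ℕ → ℕ, v ≠ (w j).map f := by
    intro w
    obtain ⟨v, hv1, hv2⟩ := exists_new enc enc_injective
      (fun p => ((w p.2).map p.1).map eq.symm)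
    refine ⟨v.map eq, fun n => ?_, fun j f h => hv2 (f, j) ?_⟩
    · rw [Ultrafilter.mem_map]
      have : (eq ⁻¹' ({n}ᶜ : Set ℕ)) = ({eq.symm n}ᶜ : Set D) := by
        ext d
        simp only [Set.mem_preimage, Set.mem_compl_iff, Set.mem_singleton_iff]
        rw [Equiv.eq_symm_apply]
      rw [this]
      exact hv1 _
    · change v = ((w j).map f).map eq.symm
      rw [← h, Ultrafilter.map_map]
      simp
  choose nx hnx1 hnx2 using step
  let St : ℕ → ℕ → Ultrafilter ℕ := fun n => Nat.rec (fun _ => pure 0)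
    (fun m w => Function.update w m (nx w)) n
  have hSt : ∀ n, St (n + 1) = Function.update (St n) n (nx (St n)) := fun n => rfl
  have hst : ∀ n j, j < n → St n j = nx (St j) := by
    intro n
    induction n with
    | zero => exact fun j hj => absurd hj (Nat.not_lt_zero j)
    | succ n ih =>
      intro j hj
      rw [hSt]
      rcases Nat.lt_succ_iff_lt_or_eq.1 hj with h | rfl
      · rw [Function.update_of_ne (ne_of_lt h)]
        exact ih j h
      · rw [Function.update_self]
  refine ⟨fun i => nx (St i), fun i n => hnx1 _ n, fun i j hj f => ?_⟩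
  have := hnx2 (St i) j f
  rwa [hst i j hj] at this

/-- Countably many nonprincipal ultrafilters that are not related by relations with bounded
fibres. -/
theorem exists_family' : ∃ u : ℕ → Ultrafilter ℕ, (∀ i n, ({n}ᶜ : Set ℕ) ∈ u i) ∧
    ∀ i, ∀ j < i, ∀ (k : ℕ) (f : Fin k → ℕ → ℕ),
      ∃ U ∈ u i, ∃ V ∈ u j, ∀ a ∈ U, ∀ b ∈ V, ∀ l, f l b ≠ a := by
  classical
  obtain ⟨u, hu1, hu2⟩ := exists_family
  refine ⟨u, hu1, fun i j hj k f => ?_⟩
  have h1 : ∀ l : Fin k, ∃ U ∈ u i, (f l ⁻¹' U)ᶜ ∈ u j := by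
    intro l
    by_contra hcon
    push Not at hcon
    apply hu2 i j hj (f l)
    have h1 : ((u j).map (f l) : Filter ℕ) ≤ (u i : Filter ℕ) := by
      intro U hU
      have h2 := hcon U hU
      rw [Ultrafilter.compl_mem_iff_notMem, not_not] at h2
      exact h2
    exact (Ultrafilter.coe_le_coe.1 h1).symm
  choose U hU1 hU2 using h1
  refine ⟨⋂ l, U l, ?_, ⋂ l, (f l ⁻¹' U l)ᶜ, ?_, ?_⟩
  · change (⋂ l, U l) ∈ (u i : Filter ℕ)
    rw [Filter.iInter_mem]
    exact hU1
  · change (⋂ l, (f l ⁻¹' U l)ᶜ) ∈ (u j : Filter ℕ)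
    rw [Filter.iInter_mem]
    exact hU2
  · intro a ha b hb l hl
    rw [Set.mem_iInter] at ha hb
    apply hb l
    rw [Set.mem_preimage, hl]
    exact ha l

end Pool.Agent.Loc52
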