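import Pool.Agent.Helper52_Loc.GCrit
import Pool.Agent.Helper52_Loc.UFam

/-!
# Local modifications (Theorem H)
-/

set_option autoImplicit false

namespace Pool.Agent.Loc52

open Pool.Agent.Helper34_Synd

variable {G : Type*} [Group G]

/-- The elements which are in `N n` for `u`-many `n`. -/
def HU (N : ℕ → Subgroup G) (u : Ultrafilter ℕ) : Subgroup G where
  carrier := {g | {n | g ∈ N n} ∈ u}
  one_mem' := by
    have : {n | (1 : G) ∈ N n} = Set.univ := by
      ext n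
      simp [(N n).one_mem]
    change {n | (1 : G) ∈ N n} ∈ u
    rw [this]
    exact Filter.univ_mem
  mul_mem' := by
    intro a b ha hb
    exact Filter.mem_of_superset (Filter.inter_mem ha hb) fun n hn => (N n).mul_mem hn.1 hn.2
  inv_mem' := by
    intro a ha
    exact Filter.mem_of_superset ha fun n hn => (N n).inv_mem hn

theorem mem_HU (N : ℕ → Subgroup G) (u : Ultrafilter ℕ) (g : G) :
    g ∈ HU N u ↔ {n | g ∈ N n} ∈ u := Iff.rfl

theorem finite_mem (u : Ultrafilter ℕ) (hu : ∀ n, ({n}ᶜ : Set ℕ) ∈ u) (A B : Set ℕ) (hA : A ∈ u)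
    (hAB : {n | n ∈ A ∧ n ∉ B}.Finite) : B ∈ u := by
  have h1 : (⋂ n ∈ {n | n ∈ A ∧ n ∉ B}, ({n}ᶜ : Set ℕ)) ∈ (u : Filter ℕ) :=
    (Filter.biInter_mem hAB).2 fun n _ => hu n
  refine Filter.mem_of_superset (Filter.inter_mem hA h1) fun n hn => ?_
  by_contra hnB
  have h2 := hn.2
  rw [Set.mem_iInter₂] at h2
  exact h2 n ⟨hn.1, hnB⟩ rfl

/-- **Theorem H.** Subgroups `N n`, an element `t` that normalises all of them and is in none of
them, and relations `R g` on the natural numbers with bounded fibres such that the values of an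
element modulo `N a`, `a ∈ U`, and its conjugates modulo `N b` can be prescribed if no `a` is
related to a `b`. -/
theorem good_of_localModifications {Q : Type*} [Group Q] (π : G →* Q)
    (hπ : Function.Surjective π) (N : ℕ → Subgroup G) (t : G)
    (htN : ∀ n, ∀ h ∈ N n, t * h * t⁻¹ ∈ N n) (htN' : ∀ n, ∀ h ∈ N n, t⁻¹ * h * t ∈ N n)
    (ht' : ∀ n, t ∉ N n) (hker : ∀ k : G, π k = 1 → {n | k ∉ N n}.Finite)
    (R : G → ℕ → ℕ → Prop)
    (hR : ∀ g, ∃ (k : ℕ) (f : Fin k → ℕ → ℕ), ∀ a b, R g a b → ∃ l, f l b = a)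
    (hcut : ∀ (U : Set ℕ) (J : Finset G) (V : G → Set ℕ),
      (∀ g ∈ J, ∀ a ∈ U, ∀ b ∈ V g, ¬ R g a b) →
      ∃ e : G, {a | a ∈ U ∧ t⁻¹ * e ∉ N a}.Finite ∧
        ∀ g ∈ J, {b | b ∈ V g ∧ g⁻¹ * e * g ∉ N b}.Finite) : Good Q := by
  classical
  obtain ⟨u, hu1, hu2⟩ := exists_family'
  have hkerU : ∀ i (k : G), π k = 1 → k ∈ HU N (u i) := by
    intro i k hk
    rw [mem_HU]
    refine finite_mem (u i) (hu1 i) Set.univ _ Filter.univ_mem ?_
    refine (hker k hk).subset ?_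
    rintro n ⟨-, hn⟩
    exact hn
  have htn : ∀ i, ∀ h ∈ HU N (u i), t * h * t⁻¹ ∈ HU N (u i) := by
    intro i h hh
    rw [mem_HU] at hh ⊢
    exact Filter.mem_of_superset hh fun n hn => htN n h hn
  have htn' : ∀ i, ∀ h ∈ HU N (u i), t⁻¹ * h * t ∈ HU N (u i) := by
    intro i h hh
    rw [mem_HU] at hh ⊢
    exact Filter.mem_of_superset hh fun n hn => htN' n h hn
  have htu : ∀ i, t ∉ HU N (u i) := by
    intro i h
    rw [mem_HU] at h
    have : {n | t ∈ N n} = ∅ := by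
      ext n
      simp [ht' n]
    rw [this] at h
    exact Ultrafilter.empty_notMem h
  refine good_of_cosets (fun i => (HU N (u i)).map π) (fun _ => π t) ?_ ?_ ?_ ?_
  · rintro i _ ⟨h, hh, rfl⟩
    exact ⟨t * h * t⁻¹, htn i h hh, by simp⟩
  · rintro i _ ⟨h, hh, rfl⟩
    exact ⟨t⁻¹ * h * t, htn' i h hh, by simp⟩
  · rintro i ⟨h, hh, hht⟩
    apply htu i
    have h1 : π (h⁻¹ * t) = 1 := by
      rw [map_mul, map_inv, hht, inv_mul_cancel]
    have h2 := (HU N (u i)).mul_mem hh (hkerU i _ h1)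
    rwa [mul_inv_cancel_left] at h2
  · intro i g
    choose g' hg' using fun j => hπ (g j)
    have h1 : ∀ j, ∃ U V : Set ℕ, j < i → U ∈ u i ∧ V ∈ u j ∧
        ∀ a ∈ U, ∀ b ∈ V, ¬ R (g' j) a b := by
      intro j
      by_cases hj : j < i
      · obtain ⟨k, f, hf⟩ := hR (g' j)
        obtain ⟨U, hU, V, hV, h⟩ := hu2 i j hj k f
        refine ⟨U, V, fun _ => ⟨hU, hV, fun a ha b hb hab => ?_⟩⟩
        obtain ⟨l, hl⟩ := hf a b hab
        exact h a ha b hb l hl
      · exact ⟨∅, ∅, fun h => absurd h hj⟩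
    choose U V hUV using h1
    let U' : Set ℕ := ⋂ j ∈ Finset.range i, U j
    have hU' : U' ∈ u i := by
      change (⋂ j ∈ Finset.range i, U j) ∈ (u i : Filter ℕ)
      rw [Filter.biInter_finset_mem]
      intro j hj
      exact (hUV j (Finset.mem_range.1 hj)).1
    let V' : G → Set ℕ := fun k => {b | ∃ j < i, g' j = k ∧ b ∈ V j}
    obtain ⟨e, he1, he2⟩ := hcut U' ((Finset.range i).image g') V' (by
      rintro k - a ha b ⟨j, hj, rfl, hb⟩
      have ha' : a ∈ U j := by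
        have := ha
        simp only [U', Set.mem_iInter] at this
        exact this j (Finset.mem_range.2 hj)
      exact (hUV j hj).2.2 a ha' b hb)
    refine ⟨π e, ⟨t⁻¹ * e, ?_, by simp⟩, fun j hj => ⟨(g' j)⁻¹ * e * g' j, ?_, by simp [hg']⟩⟩
    · exact finite_mem (u i) (hu1 i) U' _ hU' he1
    · refine finite_mem (u j) (hu1 j) (V j) _ (hUV j hj).2.1 ?_
      refine (he2 (g' j) (Finset.mem_image_of_mem _ (Finset.mem_range.2 hj))).subset ?_
      rintro b ⟨hb1, hb2⟩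
      exact ⟨⟨j, hj, rfl, hb1⟩, hb2⟩

end Pool.Agent.Loc52
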