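import Mathlib

/-!
# Diffeomorphisms from sub-series of a series of bump functions
-/

set_option autoImplicit false

open Filter
open scoped ContDiff Topology NNReal

namespace Pool.Agent.Loc52

variable {E : Type*} [NormedAddCommGroup E] [NormedSpace ℝ E] [FiniteDimensional ℝ E]
  [Nontrivial E]

/-- Coefficients `ε n` such that for every set `S` of indices the map
`y ↦ y + (∑_{n ∈ S} ε n * β n y) • w` is a smooth diffeomorphism. -/
theorem exists_diffeos (β : ℕ → E → ℝ) (hβ : ∀ i, ContDiff ℝ ∞ (β i))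
    (hβc : ∀ i, HasCompactSupport (β i)) (w : E) (hw : ‖w‖ ≤ 1) :
    ∃ ε : ℕ → ℝ, (∀ i, 0 < ε i) ∧ ∀ S : Set ℕ, ∃ φ : E ≃ₜ E, ContDiff ℝ ∞ φ ∧
      ContDiff ℝ ∞ φ.symm ∧ ∀ y, φ y = y + (∑' i, S.indicator (fun i => ε i * β i y) i) • w := by
  classical
  -- bounds
  have hC : ∀ k i : ℕ, ∃ C : ℝ, 0 ≤ C ∧ ∀ x, ‖iteratedFDeriv ℝ k (β i) x‖ ≤ C := by
    intro k i
    have h1 : Continuous (iteratedFDeriv ℝ k (β i)) :=
      (hβ i).continuous_iteratedFDeriv (by exact_mod_cast le_top)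
    obtain ⟨C, hC⟩ := ((hβc i).iteratedFDeriv k).exists_bound_of_continuous h1
    exact ⟨C, (norm_nonneg _).trans (hC 0), hC⟩
  choose C hC0 hC using hC
  let ε : ℕ → ℝ := fun i => (1 / 2 : ℝ) ^ (i + 2) / (1 + ∑ k ∈ Finset.range (i + 2), C k i)
  have hden : ∀ i, 0 < 1 + ∑ k ∈ Finset.range (i + 2), C k i := fun i =>
    add_pos_of_pos_of_nonneg one_pos (Finset.sum_nonneg fun k _ => hC0 k i)
  have hε : ∀ i, 0 < ε i := fun i => div_pos (by positivity) (hden i)
  have hεC : ∀ k i, k < i + 2 → ε i * C k i ≤ (1 / 2 : ℝ) ^ (i + 2) := by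
    intro k i hk
    have h1 : C k i ≤ 1 + ∑ k ∈ Finset.range (i + 2), C k i := by
      have := Finset.single_le_sum (f := fun k => C k i) (fun k _ => hC0 k i)
        (Finset.mem_range.2 hk)
      linarith
    have h2 : ε i * C k i = (1 / 2 : ℝ) ^ (i + 2) *
        (C k i / (1 + ∑ k ∈ Finset.range (i + 2), C k i)) := by
      simp only [ε]
      ring
    rw [h2]
    exact mul_le_of_le_one_right (by positivity) ((div_le_one (hden i)).2 h1)
  refine ⟨ε, hε, fun S => ?_⟩
  let f : ℕ → E → ℝ := fun i y => S.indicator (fun i => ε i * β i y) i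
  have hf1 : ∀ i, i ∈ S → f i = fun y => ε i • β i y := by
    intro i hi
    funext y
    simp only [f]
    rw [Set.indicator_of_mem hi, smul_eq_mul]
  have hf0 : ∀ i, i ∉ S → f i = fun _ => 0 := by
    intro i hi
    funext y
    simp only [f]
    rw [Set.indicator_of_notMem hi]
  have hfc : ∀ i, ContDiff ℝ ∞ (f i) := by
    intro i
    by_cases hi : i ∈ S
    · rw [hf1 i hi]
      exact (hβ i).const_smul (ε i)
    · rw [hf0 i hi]
      exact contDiff_const
  have hfb : ∀ k i x, ‖iteratedFDeriv ℝ k (f i) x‖ ≤ ε i * C k i := by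
    intro k i x
    by_cases hi : i ∈ S
    · rw [hf1 i hi, iteratedFDeriv_const_smul_apply' ((hβ i).contDiffAt.of_le
        (by exact_mod_cast le_top)), norm_smul, Real.norm_of_nonneg (hε i).le]
      exact mul_le_mul_of_nonneg_left (hC k i x) (hε i).le
    · rw [hf0 i hi]
      have : iteratedFDeriv ℝ k (fun _ : E => (0 : ℝ)) x = 0 := by
        rw [iteratedFDeriv_fun_zero]
        rfl
      rw [this, norm_zero]
      exact mul_nonneg (hε i).le (hC0 k i)
  have hgeo : Summable fun i : ℕ => (1 / 2 : ℝ) ^ (i + 2) := by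
    have := (summable_geometric_two).mul_left ((1 / 2 : ℝ) ^ 2)
    refine this.congr fun i => ?_
    ring
  have hgeo2 : ∑' i : ℕ, (1 / 2 : ℝ) ^ (i + 2) = 1 / 2 := by
    have h1 : (fun i : ℕ => (1 / 2 : ℝ) ^ (i + 2)) = fun i => (1 / 4 : ℝ) * (1 / 2) ^ i := by
      funext i
      ring
    rw [h1, tsum_mul_left, tsum_geometric_two]
    norm_num
  have hF : ContDiff ℝ ∞ fun y => ∑' i, f i y := by
    refine contDiff_tsum_of_eventually (v := fun _ i => (1 / 2 : ℝ) ^ (i + 2)) hfc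
      (fun k _ => hgeo) (fun k _ => ?_)
    rw [Nat.cofinite_eq_atTop]
    filter_upwards [eventually_ge_atTop k] with i hi x
    exact (hfb k i x).trans (hεC k i (by omega))
  have hsum : ∀ y, Summable fun i => f i y := by
    intro y
    refine Summable.of_norm_bounded hgeo fun i => ?_
    have h1 := (hfb 0 i y).trans (hεC 0 i (by omega))
    rwa [norm_iteratedFDeriv_zero] at h1
  have hlip1 : ∀ i x y, ‖f i x - f i y‖ ≤ (1 / 2 : ℝ) ^ (i + 2) * ‖x - y‖ := by
    intro i x y
    refine Convex.norm_image_sub_le_of_norm_fderiv_le (𝕜 := ℝ) (s := Set.univ)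
      (fun z _ => ((hfc i).differentiable (by simp)).differentiableAt) (fun z _ => ?_)
      convex_univ (Set.mem_univ y) (Set.mem_univ x)
    rw [← norm_iteratedFDeriv_one]
    exact (hfb 1 i z).trans (hεC 1 i (by omega))
  have hlip : ∀ x y, ‖(∑' i, f i x) - ∑' i, f i y‖ ≤ 1 / 2 * ‖x - y‖ := by
    intro x y
    rw [← (hsum x).tsum_sub (hsum y), ← hgeo2, ← tsum_mul_right]
    exact tsum_of_norm_bounded (hgeo.mul_right _).hasSum fun i => hlip1 i x y
  let F : E → ℝ := fun y => ∑' i, f i y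
  have happ : ApproximatesLinearOn (fun y => y + F y • w)
      ((ContinuousLinearEquiv.refl ℝ E : E ≃L[ℝ] E) : E →L[ℝ] E) Set.univ (1 / 2) := by
    intro x _ y _
    have h1 : x + F x • w - (y + F y • w) -
        ((ContinuousLinearEquiv.refl ℝ E : E ≃L[ℝ] E) : E →L[ℝ] E) (x - y) =
        (F x - F y) • w := by
      simp only [ContinuousLinearEquiv.coe_refl, ContinuousLinearMap.coe_id', id_eq]
      rw [sub_smul]
      abel
    rw [h1, norm_smul]
    have h2 := hlip x y
    have h3 : ‖F x - F y‖ * ‖w‖ ≤ ‖F x - F y‖ * 1 :=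
      mul_le_mul_of_nonneg_left hw (norm_nonneg _)
    have h4 : (((1 / 2 : ℝ≥0)) : ℝ) = 1 / 2 := by norm_num
    rw [h4]
    linarith
  have hN : (1 / 2 : ℝ≥0) < ‖((ContinuousLinearEquiv.refl ℝ E).symm : E →L[ℝ] E)‖₊⁻¹ := by
    have h1 : ((ContinuousLinearEquiv.refl ℝ E).symm : E →L[ℝ] E) =
        ContinuousLinearMap.id ℝ E := rfl
    have h2 : ‖((ContinuousLinearEquiv.refl ℝ E).symm : E →L[ℝ] E)‖₊ = 1 := by
      rw [h1]
      exact NNReal.eq (by simp)
    rw [h2, inv_one]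
    exact NNReal.half_lt_self one_ne_zero
  let φ : E ≃ₜ E := happ.toHomeomorph _ (Or.inr hN)
  have hφ : ∀ y, φ y = y + F y • w := fun y => rfl
  have hφc : ContDiff ℝ ∞ φ := by
    have : (φ : E → E) = fun y => y + F y • w := funext hφ
    rw [this]
    exact contDiff_id.add (hF.smul contDiff_const)
  refine ⟨φ, hφc, ?_, hφ⟩
  -- the derivative is invertible
  have hFd : ∀ a, HasFDerivAt F (fderiv ℝ F a) a := fun a =>
    ((hF.differentiable (by simp)) a).hasFDerivAt
  have hFn : ∀ a, ‖fderiv ℝ F a‖ ≤ 1 / 2 := by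
    intro a
    have h1 : LipschitzWith (1 / 2 : ℝ≥0) F := by
      refine LipschitzWith.of_dist_le_mul fun x y => ?_
      rw [dist_eq_norm, dist_eq_norm]
      have h4 : (((1 / 2 : ℝ≥0)) : ℝ) = 1 / 2 := by norm_num
      rw [h4]
      exact hlip x y
    have h2 := norm_fderiv_le_of_lipschitz (𝕜 := ℝ) (x₀ := a) h1
    simpa using h2
  let T : E → E →L[ℝ] E := fun a => -((fderiv ℝ F a).smulRight w)
  have hT : ∀ a, ‖T a‖ < 1 := by
    intro a
    simp only [T]
    rw [norm_neg, ContinuousLinearMap.norm_smulRight_apply]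
    have h1 : ‖fderiv ℝ F a‖ * ‖w‖ ≤ 1 / 2 * 1 :=
      mul_le_mul (hFn a) hw (norm_nonneg _) (by norm_num)
    linarith
  refine φ.contDiff_symm (f₀' := fun a =>
    ContinuousLinearEquiv.unitsEquiv ℝ E (Units.oneSub (T a) (hT a))) (fun a => ?_) hφc
  have h1 : ((ContinuousLinearEquiv.unitsEquiv ℝ E (Units.oneSub (T a) (hT a)) : E ≃L[ℝ] E) :
      E →L[ℝ] E) = ContinuousLinearMap.id ℝ E + (fderiv ℝ F a).smulRight w := by
    ext v
    simp only [T, ContinuousLinearEquiv.coe_coe, ContinuousLinearEquiv.unitsEquiv_apply,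
      Units.val_oneSub]
    simp
  rw [h1]
  have h2 : (φ : E → E) = fun y => y + F y • w := funext hφ
  rw [h2]
  exact (hasFDerivAt_id a).add ((hFd a).smul_const w)

end Pool.Agent.Loc52
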