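import Pool.Agent.Helper52_Loc.HCrit

/-!
# Groups of homeomorphisms with independent local modifications (Theorem T)
-/

set_option autoImplicit false

open Filter Topology

namespace Pool.Agent.Loc52

open Pool.Agent.Helper34_Synd

variable {G X : Type*} [Group G] [TopologicalSpace X] [MulAction G X]

/-- The elements with trivial germ at `x`. -/
def Germ (G : Type*) {X : Type*} [Group G] [TopologicalSpace X] [MulAction G X] (x : X) :
    Subgroup G where
  carrier := {g | ∀ᶠ y in 𝓝 x, g • y = y}
  one_mem' := Eventually.of_forall fun y => one_smul G y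
  mul_mem' := by
    intro a b ha hb
    filter_upwards [ha, hb] with y h1 h2
    rw [mul_smul, h2, h1]
  inv_mem' := by
    intro a ha
    filter_upwards [ha] with y h1
    rw [inv_smul_eq_iff, h1]

theorem mem_Germ (x : X) (g : G) : g ∈ Germ G x ↔ ∀ᶠ y in 𝓝 x, g • y = y := Iff.rfl

variable [ContinuousConstSMul G X]

theorem conj_mem_Germ (x : X) (t h : G) (hh : h ∈ Germ G x) : t * h * t⁻¹ ∈ Germ G (t • x) := by
  rw [mem_Germ] at hh ⊢
  have h1 : Tendsto (fun y : X => t⁻¹ • y) (𝓝 (t • x)) (𝓝 x) := by
    have := (continuous_const_smul t⁻¹).tendsto (t • x)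
    rwa [inv_smul_smul] at this
  filter_upwards [h1.eventually hh] with y hy
  rw [mul_smul, mul_smul, hy, smul_inv_smul]

theorem compact_sub (x : ℕ → X) (p : X) (hx : Tendsto x atTop (𝓝 p)) (V : Set ℕ) :
    IsCompact (insert p (x '' V)) := by
  classical
  have h1 : Tendsto (fun n => if n ∈ V then x n else p) atTop (𝓝 p) := by
    rw [tendsto_atTop_nhds] at hx ⊢
    intro O hp hO
    obtain ⟨N, hN⟩ := hx O hp hO
    refine ⟨N, fun n hn => ?_⟩
    split_ifs
    · exact hN n hn
    · exact hp
  have h2 : insert p (x '' V) = insert p (Set.range fun n => if n ∈ V then x n else p) := by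
    ext y
    constructor
    · rintro (rfl | ⟨n, hn, rfl⟩)
      · exact Or.inl rfl
      · exact Or.inr ⟨n, if_pos hn⟩
    · rintro (rfl | ⟨n, hn⟩)
      · exact Or.inl rfl
      · by_cases h : n ∈ V
        · exact Or.inr ⟨n, h, by rw [← hn]; exact (if_pos h).symm⟩
        · left
          rw [← hn]
          exact if_neg h
  rw [h2]
  exact h1.isCompact_insert_range

/-- **Theorem T.** -/
theorem good_of_germs [T2Space X] (p : X) (x : ℕ → X) (hx : Function.Injective x)
    (hxp : Tendsto x atTop (𝓝 p)) (t : G) (ht : ∀ n, t • x n = x n)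
    (ht' : ∀ n, ¬ ∀ᶠ y in 𝓝 (x n), t • y = y)
    (hmod : ∀ (U : Set ℕ) (W : ℕ → Set X), (∀ n ∈ U, W n ∈ 𝓝 (x n)) →
      ∃ e : G, (∀ n ∈ U, ∀ᶠ y in 𝓝 (x n), e • y = t • y) ∧
        ∀ y, (∀ n ∈ U, y ∉ W n) → e • y = y) : Good G := by
  classical
  refine good_of_localModifications (MonoidHom.id G) Function.surjective_id
    (fun n => Germ G (x n)) t ?_ ?_ ht' ?_ (fun g a b => x a = g • x b) ?_ ?_
  · intro n h hh
    have := conj_mem_Germ (x n) t h hh
    rwa [ht n] at this
  · intro n h hh
    have := conj_mem_Germ (x n) t⁻¹ h hh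
    rw [inv_inv] at this
    have h2 : t⁻¹ • x n = x n := by rw [inv_smul_eq_iff, ht n]
    rwa [h2] at this
  · intro k hk
    have hk' : k = 1 := hk
    subst hk'
    refine Set.Finite.subset Set.finite_empty ?_
    intro n hn
    exact hn (Germ G (x n)).one_mem
  · intro g
    refine ⟨1, fun _ b => if h : ∃ a, x a = g • x b then h.choose else 0, fun a b hab => ?_⟩
    refine ⟨0, ?_⟩
    have h : ∃ a, x a = g • x b := ⟨a, hab⟩
    simp only
    rw [dif_pos h]
    exact hx (h.choose_spec.trans hab.symm)
  · intro U J V hUV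
    -- the compact set
    let K : Set X := ⋃ g ∈ J, (fun y => g • y) '' insert p (x '' V g)
    have hK : IsCompact K := J.isCompact_biUnion fun g _ =>
      (compact_sub x p hxp (V g)).image (continuous_const_smul g)
    let U' : Set ℕ := {a | a ∈ U ∧ ∀ g ∈ J, x a ≠ g • p}
    have hUU : {a | a ∈ U ∧ a ∉ U'}.Finite := by
      have h1 : {a | a ∈ U ∧ a ∉ U'} ⊆ ⋃ g ∈ J, {a | x a = g • p} := by
        rintro a ⟨h1, h2⟩
        by_contra h3
        apply h2
        refine ⟨h1, fun g hg h4 => h3 ?_⟩
        exact Set.mem_biUnion hg h4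
      refine Set.Finite.subset ?_ h1
      refine Set.Finite.biUnion J.finite_toSet fun g _ => ?_
      exact Set.Subsingleton.finite fun a ha b hb => hx (ha.trans hb.symm)
    have hsep1 : ∀ a, ∃ W O : Set X, a ∈ U' → IsOpen W ∧ IsOpen O ∧ x a ∈ W ∧ K ⊆ O ∧
        Disjoint W O := by
      intro a
      by_cases ha : a ∈ U'
      · have h1 : Disjoint ({x a} : Set X) K := by
          rw [Set.disjoint_singleton_left]
          intro h2
          simp only [K, Set.mem_iUnion] at h2
          obtain ⟨g, hg, y, hy, hgy⟩ := h2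
          rcases hy with rfl | ⟨b, hb, rfl⟩
          · exact ha.2 g hg hgy.symm
          · exact hUV g hg a ha.1 b hb hgy.symm
        obtain ⟨W, O, hW, hO, h2, h3, h4⟩ :=
          SeparatedNhds.of_isCompact_isCompact isCompact_singleton hK h1
        exact ⟨W, O, fun _ => ⟨hW, hO, h2 rfl, h3, h4⟩⟩
      · exact ⟨∅, ∅, fun h => absurd h ha⟩
    choose W1 O1 hWO using hsep1
    have hsep2 : ∀ (g : G) (b : ℕ), ∃ P O : Set X, g • x b ≠ p → IsOpen P ∧ IsOpen O ∧ p ∈ P ∧
        g • x b ∈ O ∧ Disjoint P O := by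
      intro g b
      by_cases h : g • x b ≠ p
      · obtain ⟨P, O, h1, h2, h3, h4, h5⟩ := t2_separation h.symm
        exact ⟨P, O, fun _ => ⟨h1, h2, h3, h4, h5⟩⟩
      · exact ⟨∅, ∅, fun h' => absurd h' h⟩
    choose P2 O2 hPO using hsep2
    let W : ℕ → Set X := fun a => W1 a ∩ ⋂ g ∈ J, ⋂ b ∈ Finset.range (a + 1),
      {y | g • x b ≠ p → x a ∈ P2 g b → y ∈ P2 g b}
    have hW : ∀ a ∈ U', W a ∈ 𝓝 (x a) := by
      intro a ha
      refine inter_mem ((hWO a ha).1.mem_nhds (hWO a ha).2.2.1) ?_
      rw [biInter_finset_mem]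
      intro g _
      rw [biInter_finset_mem]
      intro b _
      by_cases h1 : g • x b ≠ p
      · by_cases h2 : x a ∈ P2 g b
        · exact mem_of_superset ((hPO g b h1).1.mem_nhds h2) fun y hy _ _ => hy
        · exact mem_of_superset univ_mem fun y _ _ h3 => absurd h3 h2
      · exact mem_of_superset univ_mem fun y _ h3 _ => absurd h3 h1
    obtain ⟨e, he1, he2⟩ := hmod U' W hW
    refine ⟨e, ?_, ?_⟩
    · refine hUU.subset ?_
      rintro a ⟨ha1, ha2⟩
      refine ⟨ha1, fun ha3 => ha2 ?_⟩
      rw [mem_Germ]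
      filter_upwards [he1 a ha3] with y hy
      rw [mul_smul, hy, inv_smul_smul]
    · intro g hg
      have h1 : {b | b ∈ V g ∧ g⁻¹ * e * g ∉ Germ G (x b)} ⊆ {b | g • x b = p} := by
        rintro b ⟨hb1, hb2⟩
        by_contra hb3
        have hb3' : g • x b ≠ p := hb3
        apply hb2
        obtain ⟨hP, hO, hp, hc, hd⟩ := hPO g b hb3'
        -- almost all `a`
        have h2 : ∀ᶠ a in atTop, x a ∈ P2 g b := hxp.eventually (hP.mem_nhds hp)
        obtain ⟨A, hA⟩ := (h2.and (eventually_ge_atTop b)).exists_forall_of_atTop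
        have hcK : g • x b ∈ K := by
          simp only [K, Set.mem_iUnion]
          exact ⟨g, hg, x b, Or.inr ⟨b, hb1, rfl⟩, rfl⟩
        have h3 : ∀ᶠ y in 𝓝 (g • x b), ∀ a ∈ U', y ∉ W a := by
          have h4 : ∀ᶠ y in 𝓝 (g • x b), ∀ a ∈ Finset.range A, a ∈ U' → y ∈ O1 a := by
            rw [eventually_all_finset]
            intro a _
            by_cases ha : a ∈ U'
            · filter_upwards [(hWO a ha).2.1.mem_nhds ((hWO a ha).2.2.2.1 hcK)] with y hy _
              exact hy
            · exact Eventually.of_forall fun y h => absurd h ha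
          filter_upwards [h4, hO.mem_nhds hc] with y hy1 hy2 a ha hyW
          by_cases haA : a < A
          · exact Set.disjoint_left.1 (hWO a ha).2.2.2.2 hyW.1
              (hy1 a (Finset.mem_range.2 haA) ha)
          · have h5 := hA a (not_lt.1 haA)
            have h6 := hyW.2
            rw [Set.mem_iInter₂] at h6
            have h7 := h6 g hg
            rw [Set.mem_iInter₂] at h7
            have h8 := h7 b (Finset.mem_range.2 (by omega)) hb3' h5.1
            exact Set.disjoint_left.1 hd h8 hy2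
        rw [mem_Germ]
        have h9 : Tendsto (fun z : X => g • z) (𝓝 (x b)) (𝓝 (g • x b)) :=
          (continuous_const_smul g).tendsto (x b)
        filter_upwards [h9.eventually h3] with z hz
        rw [mul_smul, mul_smul, he2 (g • z) hz, inv_smul_smul]
      refine Set.Finite.subset ?_ h1
      refine Set.Subsingleton.finite fun a ha b hb => hx ?_
      have h2 : g • x a = g • x b := by
        have ha' : g • x a = p := ha
        have hb' : g • x b = p := hb
        rw [ha', hb']
      exact smul_left_cancel g h2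

end Pool.Agent.Loc52
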